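import Pool.Agent.Helper4.PQ0.St
import Pool.Agent.Helper60.OS.M_CDX

/-!
Module END of PQS: the combinatorial ending for `a = 1`.
-/

set_option autoImplicit false

namespace Pool.Agent.Helper45.PQ0

open Matrix ComplexConjugate Pool.Agent.Helper94.YF Pool.Agent.Helper94.YG
open Pool.Agent.Helper89.OS hiding PD Cx Blk B0 Orb StXA StXB StXC StXE StCGR StISO StBLK StAMG StHEC StSTL StMZZ StDRE StTSU
open Pool.Agent.Helper89.OC hiding Ks gX OB Lk StORB StTS2 StLKD StTAN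
open Pool.Agent.Helper4.PQ0

section

variable {I : Type} [DecidableEq I] {p : ℕ} (C : CE I p)

/-- the quotient `D y / d` -/
def ss (k : I) : ℤ := C.D * C.y k / C.d k

theorem sy {k : I} (hk : k ∈ C.K) : C.D * C.y k = C.d k * ss C k :=
  (Int.mul_ediv_cancel' (C.dvd k hk)).symm

theorem s1 {k : I} (hk : k ∈ C.K) : (p : ℤ) ∣ ss C k - 1 := by
  have h1 := sy C hk
  have h2 := C.rel k hk
  have h3 : (p : ℤ) ∣ (C.d k : ℤ) * (ss C k - 1) := ⟨-C.z k, by linear_combination (-1) * h2 + (-1) * h1⟩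
  have hp : Prime (p : ℤ) := Nat.prime_iff_prime_int.1 C.prime
  rcases hp.dvd_or_dvd h3 with h | h
  · exact absurd (by exact_mod_cast h) (C.d_nd k hk)
  · exact h

/-- the elements with `s k = 1` -/
def AA : Finset I := C.K.filter fun k => ss C k = 1

theorem s_const {k j : I} (hk : k ∈ C.K) (hj : j ∈ C.K) (hy : C.y j = C.y k) (hd : C.d j = C.d k) :
    ss C j = ss C k := by
  have h1 := sy C hk
  have h2 := sy C hj
  rw [hy, hd, h1] at h2
  have hd0 : (C.d k : ℤ) ≠ 0 := by exact_mod_cast (C.d_pos k).ne'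
  exact (mul_left_cancel₀ hd0 h2).symm

theorem O_A {k : I} (hk : k ∈ AA C) : C.O k ⊆ AA C := by
  obtain ⟨h1, h2⟩ := Finset.mem_filter.1 hk
  intro j hj
  have hjK := C.O_K k h1 hj
  refine Finset.mem_filter.2 ⟨hjK, ?_⟩
  rw [s_const C h1 hjK (C.O_y k h1 j hj).1 (C.O_y k h1 j hj).2, h2]

theorem exM : ∃ M : ℤ, ∑ k ∈ AA C, C.y k ^ 2 = C.g * M := by
  have hAK : ∀ k ∈ AA C, k ∈ C.K := fun k hk => (Finset.mem_filter.1 hk).1
  have := Pool.Agent.Helper60.OS.dvd_orbits (AA C) C.O (fun k => C.y k ^ 2) C.g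
    (fun k hk => O_A C hk)
    (fun k hk => C.O_self k (hAK k hk)) (fun k hk => C.O_eq k (hAK k hk))
    (fun k hk j hj => by
      show C.y j ^ 2 = C.y k ^ 2
      rw [(C.O_y k (hAK k hk) j hj).1])
    (fun k hk => by
      show C.g ∣ ((C.O k).card : ℤ) * C.y k ^ 2
      rw [pow_two, ← mul_assoc]
      exact Dvd.dvd.mul_right (C.O_g k (hAK k hk)) _)
  exact this

theorem AK : AA C ⊆ C.K := Finset.filter_subset _ _

theorem D_ne : C.D ≠ 0 := by
  intro h
  have h1 := C.gD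
  rw [h, mul_zero, zero_add] at h1
  have h2 := Int.le_of_dvd one_pos h1
  have h3 := C.p3
  omega

/-- the bounds for the elements outside `A` -/
theorem bnd (k : I) (hk : k ∈ C.K \ AA C) :
    -(|C.D| * C.y k ^ 2) ≤ (p - 1) * (C.D.sign * (C.y k * C.d k)) ∧
    (p + 1) * (C.D.sign * (C.y k * C.d k)) ≤ |C.D| * C.y k ^ 2 := by
  obtain ⟨h1, h2⟩ := Finset.mem_sdiff.1 hk
  have hs1 : ss C k ≠ 1 := fun h => h2 (Finset.mem_filter.2 ⟨h1, h⟩)
  obtain ⟨u, hu⟩ := s1 C h1
  have hu0 : u ≠ 0 := by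
    rintro rfl
    apply hs1
    linarith
  have hsy := sy C h1
  have hp : (3 : ℤ) ≤ p := by exact_mod_cast C.p3
  have hD := D_ne C
  have hA : |C.D| = C.D.sign * C.D := by
    rw [← Int.sign_mul_self_eq_abs]
  have hAp : 0 < |C.D| := abs_pos.2 hD
  -- X * s = |D| y ^ 2
  set X : ℤ := C.D.sign * (C.y k * C.d k) with hX
  have hXs : X * ss C k = |C.D| * C.y k ^ 2 := by
    rw [hX, hA]
    linear_combination (-(C.D.sign * C.y k)) * hsy
  have hs : ss C k = 1 + p * u := by linarith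
  have hpos : 0 < |C.D| * C.y k ^ 2 := mul_pos hAp (by
    have := C.y_ne k h1
    positivity)
  rcases lt_or_gt_of_ne hu0 with hneg | hposu
  · -- s ≤ 1 - p
    have hs2 : ss C k ≤ 1 - p := by rw [hs]; nlinarith
    have hX0 : X < 0 := by
      by_contra h
      push Not at h
      nlinarith
    constructor
    · nlinarith
    · nlinarith
  · have hs2 : p + 1 ≤ ss C k := by rw [hs]; nlinarith
    have hX0 : 0 < X := by
      by_contra h
      push Not at h
      nlinarith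
    constructor
    · nlinarith
    · nlinarith

/-- the two basic inequalities -/
theorem ineq (M : ℤ) (hM : ∑ k ∈ AA C, C.y k ^ 2 = C.g * M) :
    0 ≤ M ∧ M ≤ p + 1 - C.g ∧
    ∑ k ∈ C.K \ AA C, C.y k ^ 2 = C.g * (p + 1 - C.g - M) ∧
    ∑ k ∈ C.K \ AA C, C.D.sign * (C.y k * C.d k) = C.g * (|C.D| * (1 - M) + C.D.sign) ∧
    -(|C.D| * (p + 1 - C.g - M)) ≤ (p - 1) * (|C.D| * (1 - M) + C.D.sign) ∧
    (p + 1) * (|C.D| * (1 - M) + C.D.sign) ≤ |C.D| * (p + 1 - C.g - M) := by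
  have hg : 0 < C.g := by have := C.g_ge; omega
  have hA : |C.D| = C.D.sign * C.D := by
    rw [← Int.sign_mul_self_eq_abs]
  have h0 : 0 ≤ M := by
    have : 0 ≤ ∑ k ∈ AA C, C.y k ^ 2 := Finset.sum_nonneg fun k _ => sq_nonneg _
    rw [hM] at this
    by_contra h
    push Not at h
    nlinarith
  have hB : ∑ k ∈ C.K \ AA C, C.y k ^ 2 = C.g * (p + 1 - C.g - M) := by
    have h1 := Finset.sum_sdiff (f := fun k => C.y k ^ 2) (AK C)
    rw [C.sq, hM] at h1
    linarith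
  have h1 : M ≤ p + 1 - C.g := by
    have : 0 ≤ ∑ k ∈ C.K \ AA C, C.y k ^ 2 := Finset.sum_nonneg fun k _ => sq_nonneg _
    rw [hB] at this
    by_contra h
    push Not at h
    nlinarith
  have hAs : ∑ k ∈ AA C, C.D.sign * (C.y k * C.d k) = |C.D| * (C.g * M) := by
    rw [← hM, Finset.mul_sum]
    refine Finset.sum_congr rfl fun k hk => ?_
    obtain ⟨h2, h3⟩ := Finset.mem_filter.1 hk
    have h4 := sy C h2
    rw [h3] at h4
    rw [hA]
    linear_combination (-(C.D.sign * C.y k)) * h4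
  have hX : ∑ k ∈ C.K \ AA C, C.D.sign * (C.y k * C.d k) =
      C.g * (|C.D| * (1 - M) + C.D.sign) := by
    have h2 := Finset.sum_sdiff (f := fun k => C.D.sign * (C.y k * (C.d k : ℤ))) (AK C)
    rw [← Finset.mul_sum (s := C.K), C.dim] at h2
    rw [hAs] at h2
    rw [hA] at h2 ⊢
    linarith
  refine ⟨h0, h1, hB, hX, ?_, ?_⟩
  · have h2 : ∑ k ∈ C.K \ AA C, -(|C.D| * C.y k ^ 2) ≤
        ∑ k ∈ C.K \ AA C, (p - 1) * (C.D.sign * (C.y k * C.d k)) :=
      Finset.sum_le_sum fun k hk => (bnd C k hk).1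
    rw [← Finset.mul_sum, hX, Finset.sum_neg_distrib, ← Finset.mul_sum, hB] at h2
    have h3 : C.g * (-(|C.D| * (p + 1 - C.g - M))) ≤
        C.g * ((p - 1) * (|C.D| * (1 - M) + C.D.sign)) := by linarith
    exact le_of_mul_le_mul_left h3 hg
  · have h2 : ∑ k ∈ C.K \ AA C, (p + 1) * (C.D.sign * (C.y k * C.d k)) ≤
        ∑ k ∈ C.K \ AA C, |C.D| * C.y k ^ 2 :=
      Finset.sum_le_sum fun k hk => (bnd C k hk).2
    rw [← Finset.mul_sum, hX, ← Finset.mul_sum, hB] at h2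
    have h3 : C.g * ((p + 1) * (|C.D| * (1 - M) + C.D.sign)) ≤
        C.g * (|C.D| * (p + 1 - C.g - M)) := by linarith
    exact le_of_mul_le_mul_left h3 hg

theorem sign_cases : (C.D.sign = 1 ∧ |C.D| = C.D ∧ 0 < C.D) ∨
    (C.D.sign = -1 ∧ |C.D| = -C.D ∧ C.D < 0) := by
  rcases lt_or_gt_of_ne (D_ne C) with h | h
  · right
    exact ⟨Int.sign_eq_neg_one_of_neg h, abs_of_neg h, h⟩
  · left
    exact ⟨Int.sign_eq_one_of_pos h, abs_of_pos h, h⟩

/-- the size of the orbit of an element, times `|y|`, is at least `g` -/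
theorem orb_ge {k : I} (hk : k ∈ C.K) : C.g ≤ ((C.O k).card : ℤ) * |C.y k| := by
  have h1 := C.O_g k hk
  have h2 : C.g ∣ ((C.O k).card : ℤ) * |C.y k| := by
    rcases abs_choice (C.y k) with h | h
    · rw [h]; exact h1
    · rw [h, mul_neg]; exact (dvd_neg).2 h1
  refine Int.le_of_dvd (mul_pos ?_ (abs_pos.2 (C.y_ne k hk))) h2
  exact_mod_cast Finset.card_pos.2 ⟨k, C.O_self k hk⟩

theorem orb_sq {k : I} {S : Finset I} (hk : k ∈ C.K) (h : C.O k ⊆ S) :
    ((C.O k).card : ℤ) * C.y k ^ 2 ≤ ∑ j ∈ S, C.y j ^ 2 := by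
  have h1 : ∑ j ∈ C.O k, C.y j ^ 2 = ((C.O k).card : ℤ) * C.y k ^ 2 := by
    rw [Finset.sum_congr rfl (fun j hj => by rw [(C.O_y k hk j hj).1]), Finset.sum_const,
      nsmul_eq_mul]
  rw [← h1]
  exact Finset.sum_le_sum_of_subset_of_nonneg h fun j _ _ => sq_nonneg _

/-- if `∑ y ^ 2 = g` over a set which is a union of orbits, then the set is one orbit with `|y| = 1` -/
theorem one_orbit {S : Finset I} (hS : ∀ k ∈ S, k ∈ C.K ∧ C.O k ⊆ S)
    (h : ∑ j ∈ S, C.y j ^ 2 = C.g) : ∃ k ∈ S, S = C.O k := by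
  have hg : 1 ≤ C.g := C.g_ge
  have hne : S.Nonempty := by
    rw [Finset.nonempty_iff_ne_empty]
    rintro rfl
    rw [Finset.sum_empty] at h
    omega
  obtain ⟨k, hk⟩ := hne
  obtain ⟨h1, h2⟩ := hS k hk
  have h3 := orb_ge C h1
  have h4 := orb_sq C h1 h2
  rw [h] at h4
  have hc : (0 : ℤ) < (C.O k).card := by
    exact_mod_cast Finset.card_pos.2 ⟨k, C.O_self k h1⟩
  have hy : 0 < |C.y k| := abs_pos.2 (C.y_ne k h1)
  have hy2 : C.y k ^ 2 = |C.y k| ^ 2 := (sq_abs _).symm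
  rw [hy2] at h4
  have h5 : |C.y k| = 1 := by
    by_contra hne
    have : 2 ≤ |C.y k| := by omega
    nlinarith
  rw [h5] at h3 h4
  have h6 : ((C.O k).card : ℤ) = C.g := by
    apply le_antisymm <;> linarith
  refine ⟨k, hk, ?_⟩
  apply le_antisymm _ h2
  intro j hj
  by_contra hjO
  have h7 : ∑ i ∈ S, C.y i ^ 2 = ∑ i ∈ S \ C.O k, C.y i ^ 2 + ∑ i ∈ C.O k, C.y i ^ 2 :=
    (Finset.sum_sdiff h2).symm
  have h8 : ∑ i ∈ C.O k, C.y i ^ 2 = C.g := by
    rw [Finset.sum_congr rfl (fun i hi => by rw [(C.O_y k h1 i hi).1, hy2, h5]),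
      Finset.sum_const, nsmul_eq_mul, h6]
    ring
  have h9 : C.y j ^ 2 ≤ ∑ i ∈ S \ C.O k, C.y i ^ 2 :=
    Finset.single_le_sum (f := fun i => C.y i ^ 2) (fun i _ => sq_nonneg _)
      (Finset.mem_sdiff.2 ⟨hj, hjO⟩)
  have h10 : 0 < C.y j ^ 2 := by
    have := C.y_ne j (hS j hj).1
    positivity
  rw [h, h8] at h7
  linarith

theorem empty_of_sq {S : Finset I} (hS : S ⊆ C.K) (h : ∑ j ∈ S, C.y j ^ 2 = 0) : S = ∅ := by
  by_contra hne
  obtain ⟨k, hk⟩ := Finset.nonempty_iff_ne_empty.2 hne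
  have h9 : C.y k ^ 2 ≤ ∑ i ∈ S, C.y i ^ 2 :=
    Finset.single_le_sum (f := fun i => C.y i ^ 2) (fun i _ => sq_nonneg _) hk
  have h10 : 0 < C.y k ^ 2 := by
    have := C.y_ne k (hS hk)
    positivity
  rw [h] at h9
  linarith

/-- the case `M = 0` -/
theorem case0 (hM : ∑ k ∈ AA C, C.y k ^ 2 = C.g * 0) : False := by
  obtain ⟨-, -, hB, hX, i1, i2⟩ := ineq C 0 hM
  have hp : (3 : ℤ) ≤ p := by exact_mod_cast C.p3
  have hg := C.g_ge
  have hg2 := C.g_le
  have hA : AA C = ∅ := empty_of_sq C (AK C) (by rw [hM, mul_zero])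
  rcases sign_cases C with ⟨hs, ha, hpos⟩ | ⟨hs, ha, hneg⟩
  · rw [hs, ha] at i2
    nlinarith
  · rw [hs, ha] at i2
    obtain ⟨a, haD⟩ : ∃ a : ℤ, a = -C.D := ⟨_, rfl⟩
    have hDa : C.D = -a := by omega
    have ha1 : 1 ≤ a := by omega
    have hag : a * C.g ≤ p + 1 := by rw [hDa] at i2; linarith
    have hdv : (p : ℤ) ∣ a * C.g - 1 := by
      have h1 := C.gD
      rw [hDa] at h1
      have h2 := (dvd_neg).2 h1
      rwa [show -(C.g * -a + 1) = a * C.g - 1 by ring] at h2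
    rcases eq_or_lt_of_le ha1 with h1 | h1
    · -- `D = -1`, `g = 1`
      rw [← h1, one_mul] at hdv
      have hg1 : C.g = 1 := by
        by_contra hne
        have h2 := Int.le_of_dvd (by omega) hdv
        omega
      have hD1 : C.D = -1 := by omega
      have hdim := C.dim
      rw [hD1] at hdim
      have hyp : ∀ k ∈ C.K, 0 < C.y k := by
        intro k hk
        by_contra hle
        push Not at hle
        have hy0 : C.y k < 0 := lt_of_le_of_ne hle (C.y_ne k hk)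
        have hkB : k ∈ C.K \ AA C := by rw [hA]; simpa using hk
        have h3 := (bnd C k hkB).2
        rw [hs, ha, hD1] at h3
        have hd : (1 : ℤ) ≤ C.d k := by exact_mod_cast C.d_pos k
        -- (p+1) (-(y d)) ≤ y^2, so p + 1 ≤ -y
        have h4 : ((p : ℤ) + 1) * C.d k ≤ -C.y k := by
          by_contra hcon
          push Not at hcon
          nlinarith
        have h5 : (p : ℤ) + 1 ≤ -C.y k := by nlinarith
        have h6 : C.y k ^ 2 ≤ ∑ i ∈ C.K, C.y i ^ 2 :=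
          Finset.single_le_sum (f := fun i => C.y i ^ 2) (fun i _ => sq_nonneg _) hk
        rw [C.sq, hg1] at h6
        nlinarith
      obtain ⟨k, hk, hyk⟩ := C.pos
      have h7 : 0 < ∑ j ∈ C.K, C.y j * (C.d j : ℤ) := by
        apply Finset.sum_pos
        · intro j hj
          exact mul_pos (hyp j hj) (by exact_mod_cast C.d_pos j)
        · exact ⟨k, hk⟩
      rw [hdim] at h7
      simp at h7
    · -- `a g = p + 1`
      have h2 : a * C.g = p + 1 := by
        have h3 : 0 < a * C.g - 1 := by nlinarith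
        have h4 := Int.le_of_dvd h3 hdv
        omega
      have heq : ∀ k ∈ C.K \ AA C, |C.D| * C.y k ^ 2 -
          (p + 1) * (C.D.sign * (C.y k * C.d k)) = 0 := by
        have hnn : ∀ k ∈ C.K \ AA C, 0 ≤ |C.D| * C.y k ^ 2 -
            (p + 1) * (C.D.sign * (C.y k * C.d k)) := by
          intro k hk
          have := (bnd C k hk).2
          linarith
        rw [← Finset.sum_eq_zero_iff_of_nonneg hnn, Finset.sum_sub_distrib, ← Finset.mul_sum,
          ← Finset.mul_sum, hB, hX, hs, ha, hDa]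
        linear_combination (-C.g) * h2
      obtain ⟨k, hk, hyk⟩ := C.pos
      have hkB : k ∈ C.K \ AA C := by rw [hA]; simpa using hk
      have h3 := heq k hkB
      rw [hs, ha, hDa] at h3
      have hd : (0 : ℤ) < C.d k := by exact_mod_cast C.d_pos k
      have h4 : 0 < C.y k * C.d k := mul_pos hyk hd
      have h5 : 0 < a * C.y k ^ 2 := by positivity
      nlinarith

/-- the case `M = 1` -/
theorem case1 (hM : ∑ k ∈ AA C, C.y k ^ 2 = C.g * 1) :
    ∃ k ∈ C.K, ∑ j ∈ C.K \ C.O k, C.y j * (C.d j : ℤ) = C.g := by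
  obtain ⟨k, hk, hS⟩ := one_orbit C (S := AA C) (fun k hk => ⟨AK C hk, O_A C hk⟩)
    (by rw [hM, mul_one])
  refine ⟨k, AK C hk, ?_⟩
  rw [← hS]
  have h1 : ∑ j ∈ AA C, C.y j * (C.d j : ℤ) = C.g * C.D := by
    have h2 : ∀ j ∈ AA C, C.y j * (C.d j : ℤ) = C.D * C.y j ^ 2 := by
      intro j hj
      obtain ⟨h3, h4⟩ := Finset.mem_filter.1 hj
      have h5 := sy C h3
      rw [h4] at h5
      linear_combination (-C.y j) * h5
    rw [Finset.sum_congr rfl h2, ← Finset.mul_sum, hM]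
    ring
  have h6 := Finset.sum_sdiff (f := fun j => C.y j * (C.d j : ℤ)) (AK C)
  rw [h1, C.dim] at h6
  linarith

/-- the case `M = 2` -/
theorem case2 (hM : ∑ k ∈ AA C, C.y k ^ 2 = C.g * 2) (hD : 0 < C.D) :
    (∃ k ∈ C.K, C.d k = 1) ∨ (∃ k ∈ C.K, C.y k = -(C.g * (C.d k : ℤ))) ∨
      (∃ k ∈ C.K, C.d k = 2) := by
  obtain ⟨-, -, hB, hX, i1, i2⟩ := ineq C 2 hM
  have hp : (3 : ℤ) ≤ p := by exact_mod_cast C.p3
  have hg := C.g_ge
  have hg2 := C.g_le
  rw [Int.sign_eq_one_of_pos hD, abs_of_pos hD] at i1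
  have h1 : C.g * C.D = p - 1 := by
    have h2 := C.gD
    have h3 : 0 < C.g * C.D + 1 := by positivity
    have h4 := Int.le_of_dvd h3 h2
    nlinarith
  have heq : ∀ k ∈ C.K \ AA C, |C.D| * C.y k ^ 2 +
      (p - 1) * (C.D.sign * (C.y k * C.d k)) = 0 := by
    have hnn : ∀ k ∈ C.K \ AA C, 0 ≤ |C.D| * C.y k ^ 2 +
        (p - 1) * (C.D.sign * (C.y k * C.d k)) := by
      intro k hk
      have := (bnd C k hk).1
      linarith
    rw [← Finset.sum_eq_zero_iff_of_nonneg hnn, Finset.sum_add_distrib, ← Finset.mul_sum,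
      ← Finset.mul_sum, hB, hX, Int.sign_eq_one_of_pos hD, abs_of_pos hD]
    linear_combination (-C.g) * h1
  by_cases hne : (C.K \ AA C).Nonempty
  · obtain ⟨k, hk⟩ := hne
    right; left
    refine ⟨k, (Finset.mem_sdiff.1 hk).1, ?_⟩
    have h2 := heq k hk
    rw [Int.sign_eq_one_of_pos hD, abs_of_pos hD, ← h1] at h2
    have hy := C.y_ne k (Finset.mem_sdiff.1 hk).1
    have h3 : (C.D * C.y k) * (C.y k + C.g * C.d k) = 0 := by linear_combination h2
    rcases mul_eq_zero.1 h3 with h | h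
    · rcases mul_eq_zero.1 h with h | h
      · omega
      · exact absurd h hy
    · linarith
  · rw [Finset.not_nonempty_iff_eq_empty] at hne
    rw [hne, Finset.sum_empty] at hB
    have hgp : C.g = p - 1 := by
      rcases mul_eq_zero.1 hB.symm with h | h
      · omega
      · omega
    have hD1 : C.D = 1 := by
      have h2 : (p - 1 : ℤ) * C.D = (p - 1) * 1 := by rw [← hgp, h1, hgp]; ring
      exact mul_left_cancel₀ (by omega) h2
    have hneA : (AA C).Nonempty := by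
      rw [Finset.nonempty_iff_ne_empty]
      intro h
      rw [h, Finset.sum_empty] at hM
      omega
    obtain ⟨k, hk⟩ := hneA
    obtain ⟨hkK, hsk⟩ := Finset.mem_filter.1 hk
    have hyd : C.y k = C.d k := by
      have := sy C hkK
      rw [hD1, hsk] at this
      linarith
    have h3 := orb_sq C hkK (O_A C hk)
    rw [hM] at h3
    have h4 := orb_ge C hkK
    have hc : (0 : ℤ) < (C.O k).card := by
      exact_mod_cast Finset.card_pos.2 ⟨k, C.O_self k hkK⟩
    have hdp : (0 : ℤ) < C.d k := by exact_mod_cast C.d_pos k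
    rw [hyd] at h3 h4
    rw [abs_of_pos hdp] at h4
    have h5 : (C.d k : ℤ) ≤ 2 := by
      by_contra h
      push Not at h
      nlinarith
    have h7 : C.d k ≤ 2 := by exact_mod_cast h5
    have h8 := C.d_pos k
    rcases (by omega : C.d k = 1 ∨ C.d k = 2) with h | h
    · exact Or.inl ⟨k, hkK, h⟩
    · exact Or.inr (Or.inr ⟨k, hkK, h⟩)

end

theorem hEND : StEND := by
  intro I _ p C
  obtain ⟨M, hM⟩ := exM C
  obtain ⟨h0, h1, hB, hX, i1, i2⟩ := ineq C M hM
  have hp : (3 : ℤ) ≤ p := by exact_mod_cast C.p3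
  have hg := C.g_ge
  have hg2 := C.g_le
  rcases (by omega : M = 0 ∨ M = 1 ∨ M = 2 ∨ 3 ≤ M) with h | h | h | h
  · exfalso
    rw [h] at hM
    exact case0 C hM
  · rw [h] at hM
    exact Or.inr (Or.inr (Or.inr (case1 C hM)))
  · have hD : 0 < C.D := by
      rcases sign_cases C with ⟨hs, ha, hpos⟩ | ⟨hs, ha, hneg⟩
      · exact hpos
      · exfalso
        rw [hs, ha, h] at i1
        nlinarith
    rw [h] at hM
    rcases case2 C hM hD with h3 | h3 | h3
    · exact Or.inl h3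
    · exact Or.inr (Or.inl h3)
    · exact Or.inr (Or.inr (Or.inl h3))
  · exfalso
    rcases sign_cases C with ⟨hs, ha, hpos⟩ | ⟨hs, ha, hneg⟩
    · rw [hs, ha] at i1
      have h2 : C.D * (p * M - 2 * p + C.g) ≤ p - 1 := by linarith
      have h3 : (p : ℤ) + 1 ≤ p * M - 2 * p + C.g := by nlinarith
      nlinarith
    · rw [hs, ha] at i1
      have h2 : -C.D * (p * M - 2 * p + C.g) ≤ -(p - 1) := by linarith
      have h3 : (p : ℤ) + 1 ≤ p * M - 2 * p + C.g := by nlinarith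
      nlinarith

end Pool.Agent.Helper45.PQ0
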